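import Pool.Agent.Q195.JP.Main

set_option autoImplicit false

/-!
# Jordan paths in the maximal collection generated by the subpaths of a path

For every admissible path `Γ` in the plane, with `X` its image and `F` the collection of its
subpaths, the maximal collection generated by `F` contains every Jordan path in `X`.
-/

open Set

namespace Pool.Agent.Results.MP_78c6b8_an.JordanPathsBelong

/-- A path: a function which is continuous on `[a, b]`, where `a < b` (the values outside `[a, b]`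
play no role). -/
structure PlanePath where
  toFun : ℝ → ℂ
  a : ℝ
  b : ℝ
  lt : a < b
  cont : ContinuousOn toFun (Icc a b)

/-- The image of a path. -/
def PlanePath.image (γ : PlanePath) : Set ℂ := γ.toFun '' Icc γ.a γ.b

/-- `σ` is the restriction of `γ` to a closed subinterval of the interval of `γ`. -/
def IsSubpath (σ γ : PlanePath) : Prop :=
  γ.a ≤ σ.a ∧ σ.b ≤ γ.b ∧ ∀ t ∈ Icc σ.a σ.b, σ.toFun t = γ.toFun t

/-- The path has finite total variation. -/
def Rectifiable (γ : PlanePath) : Prop := BoundedVariationOn γ.toFun (Icc γ.a γ.b)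

/-- Admissible: rectifiable, and no subpath is constant. -/
def Admissible (γ : PlanePath) : Prop :=
  Rectifiable γ ∧ ∀ σ : PlanePath, IsSubpath σ γ → ¬ ∃ z, ∀ t ∈ Icc σ.a σ.b, σ.toFun t = z

/-- A Jordan path: the path is injective. -/
def IsJordan (γ : PlanePath) : Prop := InjOn γ.toFun (Icc γ.a γ.b)

/-- `J` is the contour integral of `g` along `γ`: the limit of the Riemann-Stieltjes sums over tagged
partitions of `[a, b]`, as the mesh tends to zero. -/
def HasIntegral (γ : PlanePath) (g : ℂ → ℂ) (J : ℂ) : Prop :=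
  ∀ ε > 0, ∃ δ > 0, ∀ (n : ℕ) (t ξ : ℕ → ℝ), Monotone t → t 0 = γ.a → t n = γ.b →
    (∀ i < n, t i ≤ ξ i ∧ ξ i ≤ t (i + 1)) → (∀ i < n, t (i + 1) - t i < δ) →
    ‖∑ i ∈ Finset.range n, g (γ.toFun (ξ i)) * (γ.toFun (t (i + 1)) - γ.toFun (t i)) - J‖ < ε

/-- `g` is an `F`-derivative of `f` (both continuous on `X`): the integral of `g` along every path of
`F` is the increment of `f`. -/
def IsFDerivative (X : Set ℂ) (F : Set PlanePath) (f g : ℂ → ℂ) : Prop :=
  ContinuousOn f X ∧ ContinuousOn g X ∧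
    ∀ γ ∈ F, HasIntegral γ g (f (γ.toFun γ.b) - f (γ.toFun γ.a))

/-- `g` is a `γ`-derivative of `f`: the integral of `g` along every subpath of `γ` is the increment
of `f`. -/
def IsPathDerivative (γ : PlanePath) (f g : ℂ → ℂ) : Prop :=
  ∀ σ : PlanePath, IsSubpath σ γ → HasIntegral σ g (f (σ.toFun σ.b) - f (σ.toFun σ.a))

/-- The maximal collection generated by a collection `F` of paths in `X`. -/
def maximalCollection (X : Set ℂ) (F : Set PlanePath) : Set PlanePath :=
  {γ | Admissible γ ∧ γ.image ⊆ X ∧ ∀ f g : ℂ → ℂ, IsFDerivative X F f g → IsPathDerivative γ f g}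

/-- For every admissible path `Γ`, the maximal collection generated by the subpaths of `Γ` contains
every Jordan path in the image of `Γ`. -/
theorem result (Γ : PlanePath) (hΓ : Admissible Γ) (γ : PlanePath) (hγ : IsJordan γ)
    (hX : γ.image ⊆ Γ.image) :
    γ ∈ maximalCollection Γ.image {σ : PlanePath | IsSubpath σ Γ} := by
  have hrect : Rectifiable γ := Q195.JP.rectifiable Γ.lt Γ.cont hΓ.1 γ.cont hγ hX
  refine ⟨⟨hrect, ?_⟩, hX, ?_⟩
  · rintro σ ⟨h1, h2, h3⟩ ⟨z, hz⟩
    have ha : σ.a ∈ Icc σ.a σ.b := left_mem_Icc.2 σ.lt.le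
    have hb : σ.b ∈ Icc σ.a σ.b := right_mem_Icc.2 σ.lt.le
    have e : γ.toFun σ.a = γ.toFun σ.b := by
      rw [← h3 _ ha, ← h3 _ hb, hz _ ha, hz _ hb]
    have := hγ ⟨h1, σ.lt.le.trans h2⟩ ⟨h1.trans σ.lt.le, h2⟩ e
    exact σ.lt.ne this
  · rintro f g ⟨_, hg, hfg⟩ σ ⟨h1, h2, h3⟩
    have key := Q195.JP.integral Γ.lt Γ.cont hΓ.1 γ.cont hγ hX (F := f) (G := g) hg (by
      intro c d hc hcd hd
      have h := hfg ⟨Γ.toFun, c, d, hcd, Γ.cont.mono (Icc_subset_Icc hc hd)⟩
        ⟨hc, hd, fun _ _ => rfl⟩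
      exact h) h1 h2
    have ha : σ.a ∈ Icc σ.a σ.b := left_mem_Icc.2 σ.lt.le
    have hb : σ.b ∈ Icc σ.a σ.b := right_mem_Icc.2 σ.lt.le
    rw [h3 _ ha, h3 _ hb]
    intro ε hε
    obtain ⟨δ, hδ, h⟩ := key ε hε
    refine ⟨δ, hδ, fun n t ξ ht ht0 htn hξ hmesh => ?_⟩
    have hm : ∀ i ≤ n, t i ∈ Icc σ.a σ.b := fun i hi =>
      ⟨by rw [← ht0]; exact ht (Nat.zero_le i), by rw [← htn]; exact ht hi⟩
    have e : ∑ i ∈ Finset.range n, g (σ.toFun (ξ i)) * (σ.toFun (t (i + 1)) - σ.toFun (t i)) =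
        ∑ i ∈ Finset.range n, g (γ.toFun (ξ i)) * (γ.toFun (t (i + 1)) - γ.toFun (t i)) := by
      refine Finset.sum_congr rfl fun i hi => ?_
      rw [Finset.mem_range] at hi
      rw [h3 _ (hm i hi.le), h3 _ (hm (i + 1) hi),
        h3 _ ⟨(hm i hi.le).1.trans (hξ i hi).1, (hξ i hi).2.trans (hm (i + 1) hi).2⟩]
    rw [e]
    exact h n t ξ ht ht0 htn hξ hmesh

end Pool.Agent.Results.MP_78c6b8_an.JordanPathsBelong
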